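import Mathlib
import Pool.Agent.Q274.Pol.Def
import Pool.Agent.Q274.Pol.Poly

/-!
# An equivelar self-dual polyhedron without a polarity

There is a finite equivelar self-dual abstract polyhedron of type `{5, 5}` none of whose dualities has
period `2`. It has `16` vertices, `40` edges, `16` pentagonal faces and `160` flags; the group of its
automorphisms and dualities is cyclic of order `4`, generated by a duality. It was found as the
`4`-fold cyclic cover, in the group `[4, 5]`, of a map of type `{5, 4}` with `8` pentagons, the
character of the dualities being lifted to a character of order `4`.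

The definitions are in `Pool/Agent/Q274/Pol/Def.lean`.
-/

set_option autoImplicit false

namespace Pool.Agent.Results.MP_1940b6_co.EquivelarWithoutPolarity

open Pool.Agent.Q274.Pol

/-- **Q1, negated form.** There is a (finite) equivelar self-dual polyhedron, of type `{5, 5}`, none of
whose dualities has period `2`. -/
theorem result : ∃ (P : Type) (_ : Finite P) (_ : PartialOrder P) (rank : P → ℤ),
    IsPolyhedron P rank ∧ IsEquivelar P rank 5 5 ∧
    (∃ δ : P ≃ P, IsDuality δ) ∧
    ∀ δ : P ≃ P, IsDuality δ → ¬ ∀ F : P, δ (δ F) = F :=
  ⟨Face, inferInstance, inferInstance, Face.rk, isPolyhedron, isEquivelar, exists_duality,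
    fun _ h hinv => no_polarity h hinv⟩

end Pool.Agent.Results.MP_1940b6_co.EquivelarWithoutPolarity
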